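import Pool.Agent.FRJ.CasesJ
import Pool.Agent.NOC.Emb
import Pool.Agent.TIF.Goal

/-!
# MP_17a657_ag (Tate conjecture for divisors): Artin-Schreier covers with uniruled quotient threefolds

Let `k` be a field of characteristic `p > 0`, `K₀` the function field of a surface over `k`,
`e ≥ 2` prime to `p`. Let `φ` be an additive separable polynomial of degree `Q > 1` over `k`,
`F ∈ K₀`, and let `K = K₀(z)`, `φ(z) = F`, be an extension of degree `Q`. If the threefold
`φ(w) + a ^ e = F`, a quotient of the product of a model `X` of `K` and the curve `φ(U) = a ^ e`, is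
uniruled, then the Tate conjecture for divisors holds for `X` if it holds for finitely many products
of two curves and for a smooth model of `K₀`. More precisely, for every prime `ℓ ≠ p` the group `V_ℓ`
of the invariant unramified elements of the Tate module of the geometric Brauer group of `X` embeds
in the product of the groups `V_ℓ` of these surfaces (case (i)). For finite `k` the groups `V_ℓ` of
products of two curves are zero by Tate's theorem, which is proved in the library `TIF`.

The assumption on the threefold is proved for `φ = X ^ p - X`, `K₀ = k(x₀, x₁, x₂)`, `g(x) = 0`, and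
`F = f / G`, `f`, `g` and `G` polynomials, `G = G₁ Q₁ ^ p = G₂ Q₂ ^ e`, under the condition
`wt f ≤ D`, `wt G < D` and
`(1 - 1 / e - 1 / p) D + wt G₁ / p + wt G₂ / e ≤ wt x₀ + wt x₁ + wt x₂ - wt g` for some weights of
the `x_i`. For `K₀ = k(x₀, x₁)` one takes `x₂ = 0` and `g = X₂`; if `p = 2`, `e = 3` or `p = 3`,
`e = 2`, and `F = f / q ^ 6`, then the condition is `wt f ≤ 6 (wt x₀ + wt x₁)`,
`wt q < wt x₀ + wt x₁`. The functions `F` with fixed `x`, `G`, `D` and weights are an additive group
`V`, stable under multiplication by constants; if `K` is generated over `K₀` by elements `z` with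
`φ(z) ∈ V` for additive separable polynomials `φ` which may depend on `z` then, over a finite
extension of `k`, it is a subfield of an elementary abelian extension `K₀(y_1, …, y_r)`,
`y_i ^ p - y_i ∈ V`, and the norm relations in the group ring of `F_p ^ r` reduce it to the
extensions `K₀(c_1 y_1 + … + c_r y_r)` (case (ii)). So the Tate conjecture for divisors holds, over a
finite field of characteristic `p`, for instance for every surface which is dominated by a surface
`z ^ Q - z = F(u ^ R - u, v ^ T - v)`, `Q`, `R`, `T` powers of `p`, with `F = f / q ^ 6`,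
`deg f ≤ 12`, `deg q ≤ 1` for `p = 2` and `p = 3`, and with a polynomial `F` of degree at most 6 for
`p = 5` and at most 5 for `p = 7`; for `p = 2` and `p = 3` it also holds for the surfaces
`z ^ Q - z = f(x, y) / q(x, y) ^ 6` with `wt f ≤ 6 (wt x + wt y)`, `wt q < wt x + wt y`. (If `p = 2`
or `p = 3` and `F` is a polynomial in `y` of degree at most six over `k(x)`, then the curves
`z ^ p - z = F` over `k(x)` are supersingular and the conjecture follows from known results. This is
not so for the curves `z ^ 2 - z = y + c / y ^ i`, `i ≤ 5` odd, `c` in `k[x]` of degree at most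
`6 i + 6`, with the weights 1 and 6 of `x` and `y`. For odd `p` case (ii) also contains polynomials
with `deg F ≤ 4`; the surfaces `φ(z) = F(x, y)` with `deg F ≤ 4` are in the hand-in
`RationalDoublePlanes`.) The rational curves on the threefold `g = 0`, `w ^ p - w + a ^ e = f / G`
are found as polynomial arcs `x_i(τ), v(τ), S(τ)`, `v = Q₂ a`, with `g = 0` and
`f - G₂ v ^ e = G₁ (S ^ p - Q₁ ^ (p - 1) S) + c τ G` for a constant `c`, which is one more unknown:
the curve `w ^ p - w = (S / Q₁) ^ p - S / Q₁ + c τ` is rational.

Case (iii): there is one more generator `z` of `K` with `z ^ e = H(x)`, `H` a polynomial such that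
`X ^ e - H(x)` is irreducible over the compositum of `K₀` and the algebraic closure of `k` in `M`, and
`wt G₂` is replaced with `wt G₂ + wt H` in the conditions `wt G₂ ≤ D` (which is a part of
`wt G < D` in case (ii)) and `(1 - 1 / e - 1 / p) D + … ≤ …`. So over a finite field of
characteristic 2 the conjecture holds, for instance, for the surfaces which are dominated by a
surface `z ^ Q - z = f(x, y)`, `w ^ N = h(x, y)`, `x = u ^ R - u`, `y = v ^ T - v` with `N` odd, `f`
and `h` of degree at most 4 and `X ^ N - h(x, y)` irreducible over the algebraic closure of the field;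
for `N = 3` it is enough that `deg f + 2 deg h ≤ 12`, `deg h ≤ 4`. In characteristic 3 it is so with
the degrees at most 3. Here one uses the threefold `w ^ p - w + H a ^ e = f / G`, which is the
quotient of the product of the surface `K₀(Y, Z)`, `Y ^ p - Y = f / G`, `Z ^ e = H`, and the curve
`U ^ p - U = b ^ e`, `w = Y - U`, `a = b / Z`, under the group of order `p e`. The group ring of this
group acts on the curve by correspondences of degree zero over the line with the coordinate `b ^ e`;
the correspondences `y ↦ y ^ q`, `y = b ^ e`, `q` a power of `p`, have the Kummer characters of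
`c ^ ((q - 1) / e)` and the Artin-Schreier characters of the traces of the elements `c` of the field
with `q` elements as local multipliers, and the Gauss sums of these characters are not zero (library
`FRB`). Over the extension `K₀(Z)` itself one uses `U ^ 2 - U = H a ^ e` and `U ↦ U ^ q` for `p = 2`
(library `FRJ`), and the threefold `U ^ 2 = H a ^ e + 1` for odd `p` (library `KTW`).

Idea of the proof. Let `P` be a generic point of the surface of `K₀` and `A` the algebraic closure
of `K`. The field `L = K₀(a, w)` of the threefold is contained in `H(T)`, where `H` is algebraically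
closed of transcendence degree two over `k`: through the generic point of the threefold there is the
rational curve with the parametrization `P(T), a(T), w(T)`. Let `(a, U)` be the generic point of the
curve `φ(U) = a ^ e` over `A`, so that `(P, a, w)`, `w = z - U`, is a point of the threefold, with
the parameter `T = t`. The solutions `T_i` of `a(T) = ζ a`, `ζ ^ e = 1`, `ζ ≠ 1`, give embeddings
`ξ_i : P ↦ P(T_i), z ↦ w(T_i) + U` of `K` in an algebraic closure of `A(a, U)`; let `h_i = T_i - t`.
(1) Reciprocity (block R of the library `TUQ`): for an invariant unramified class `c` of `K` the sum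
of the conjugates `c^ψ`, `ψ` the residue of `ξ_i` at a place `v`, multiplied by `ord_v(h_i)`, over
all places of `A(a, U)` and all `i`, is trivial over a finite extension (up to `p`-torsion). (2) Let
`v` induce the trivial valuation on `H`. If `a(v) ≠ 0` is finite there is no contribution. If
`a(v) = 0` all `ψ` are the identity on `K`, which contributes a positive multiple of `c`, and this
occurs. If `a(v)` is infinite then `v` is totally ramified in `A(a, U) / A(a)`, and the elements of
the inertia group show that the conjugates of `c` are those under `z ↦ z + c`, `φ(c) = 0`, each with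
the same multiplicity: their sum is a trace to `K₀`. (3) If `v` is not trivial on `H`, then `a` is a
residually transcendental element over `H` up to an affine change; the residue field of `H(a, U)` is,
up to `p`-th roots, the compositum of two fields of transcendence degree one, and its automorphisms
lift to automorphisms over `H(a, U)` which preserve `v`; these permute the `T_i`, and the order of
`T_i - t` depends only on the disc of `T_i`, because `a(T_i) / a = ζ` is not one. So a multiple of
`c` is a sum of elements which come from the fields in the list, and these fields do not depend on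
`ℓ`.
-/

namespace Pool.Agent.Results.MP_17a657_ag.ArtinSchreierQuotients

open Polynomial Pool.Agent.TUQ Pool.Agent.WLD Pool.Agent.UQ Pool.Agent.NOC Pool.Agent.ADH
  Pool.Agent.FRB Pool.Agent.FRJ

theorem result {k M : Type} [Field k] [Field M] [Algebra k M] [IsAlgClosed M] (p : ℕ)
    [Fact p.Prime] [CharP k p] (htd : Algebra.trdeg k M = 2)
    (K₀ : IntermediateField k M) (hfg : K₀.FG) (hal : ∀ x : M, IsAlgebraic K₀ x)
    (e : ℕ) (he : 2 ≤ e) (hek : (e : k) ≠ 0) (S : Finset M)
    (h : CaseU K₀ S e ∨ CaseG p K₀ S e ∨ CaseK p K₀ S e)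
    (N : IntermediateField k M) (hN : N ≤ K₀ ⊔ IntermediateField.adjoin k (S : Set M))
    (hNal : ∀ x : M, IsAlgebraic N x) :
    ∃ (n : ℕ) (L : Fin n → IntermediateField k M),
      (∀ j, ((Infinite k ∧ Two (L j)) ∨ L j = K₀) ∧ ∀ x : M, IsAlgebraic (L j) x) ∧
      ∀ ℓ : ℕ, ℓ.Prime → (ℓ : k) ≠ 0 →
        Embeds k ℓ N L ∧
        (Finite k → CaseG p K₀ S e ∨ CaseK p K₀ S e ∨ Two K₀ → Pool.Agent.T1B.T1 k N ℓ) := by
  obtain ⟨n, L, h1, h2⟩ := cases_homJ p htd K₀ hfg hal e he hek S h N hN hNal
  have h3 : ∀ ℓ : ℕ, ℓ.Prime → (ℓ : k) ≠ 0 → Embeds k ℓ N L := fun ℓ hℓ hk =>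
    embeds_of_hom _ _ _ (h2 ℓ hℓ hk)
  rcases finite_or_infinite k with hf | hi
  · have hT : ∀ L' : IntermediateField k M, Two L' → ∀ ℓ : ℕ, ℓ.Prime → (ℓ : k) ≠ 0 →
        Pool.Agent.T1B.T1 k L' ℓ := by
      rintro _ ⟨K₁, K₂, a1, a2, a3, a4, rfl⟩ ℓ hℓ hk
      exact TIF.goal k M K₁ K₂ a1 a2 a3 a4 ℓ hℓ hk
    obtain ⟨n', ι, i1, i2⟩ := TIF.exists_sub fun j => L j = K₀
    refine ⟨n', fun j => L (ι j), fun j => ⟨Or.inr (i1 j), (h1 (ι j)).2⟩, fun ℓ hℓ hk => ⟨?_,
      fun _ hx => ?_⟩⟩
    · refine TIF.embeds_sub L ι (fun i => ?_) (h3 ℓ hℓ hk)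
      rcases (h1 i).1 with hg | hg
      · exact Or.inr ⟨hT _ hg ℓ hℓ hk, (h1 i).2⟩
      · exact Or.inl (i2 i hg)
    · rcases hx with hx | hx | hK₀
      · obtain ⟨n₂, L₂, g1, g2⟩ := hx.emt htd hal he hek N hN hNal
        exact TIF.t1_of_embeds' hNal L₂ (fun j => ⟨hT _ (g1 j).1 ℓ hℓ hk, (g1 j).2⟩)
          (embeds_of_hom _ _ _ (g2 ℓ hℓ hk))
      · obtain ⟨n₂, L₂, g1, g2⟩ := hx.emt htd hal he hek N hN hNal
        exact TIF.t1_of_embeds' hNal L₂ (fun j => ⟨hT _ (g1 j).1 ℓ hℓ hk, (g1 j).2⟩)
          (embeds_of_hom _ _ _ (g2 ℓ hℓ hk))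
      · refine TIF.t1_of_embeds' hNal L (fun j => ⟨?_, (h1 j).2⟩) (h3 ℓ hℓ hk)
        rcases (h1 j).1 with hg | hg
        · exact hT _ hg ℓ hℓ hk
        · rw [hg]
          exact hT _ hK₀ ℓ hℓ hk
  · refine ⟨n, L, fun j => ⟨?_, (h1 j).2⟩, fun ℓ hℓ hk => ⟨h3 ℓ hℓ hk, fun hf =>
      absurd hf (not_finite_iff_infinite.2 hi)⟩⟩
    rcases (h1 j).1 with hg | hg
    · exact Or.inl ⟨hi, hg⟩
    · exact Or.inr hg

end Pool.Agent.Results.MP_17a657_ag.ArtinSchreierQuotients
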