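import Pool.Agent.EST.B

/-!
# MP_17a657_ag (Tate conjecture for divisors): surfaces dominated by elliptic surfaces

Let `k` be a finite field of characteristic `p`. We prove the Tate conjecture for divisors, in the
form `T₁` (`V_ℓ Br(X_{k^s})^{G_k} = 0` for every prime `ℓ ≠ p`), for all surfaces `X` over `k` which are
dominated by an elliptic surface in one of the cases (a), …, (d) or by a surface as in (e). In (a), …,
(d) the elliptic surface is given by a Weierstrass equation over `k[s]`, pulled back to the field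
`K = k(s)(z_1, …, z_r)`, `φ_j(z_j) = F_j(s)`, with additive separable polynomials `φ_j` and
polynomials `F_j` over `k`; `r = 0` in (a) and (c).

(a) `y² = x³ + a₂ x² + a₄ x + a₆`, `deg a_i ≤ i p`, and either `p = 3` and `a₂` is a cube, or `p = 5`,
`a₂ = 0`, and `a₄` is a fifth power: the Hasse invariant is a `p`-th power. Together with the surfaces
with `p_g ≤ 1` or constant `j` these are for `p = 3` all elliptic surfaces over the projective line
with a section, given by a Weierstrass equation, such that the Frobenius is zero on `H²(X, O_X)`.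

(b) `deg a_i ≤ i (1 - m (1 - 1/e - 1/p))`, `deg F_j ≤ m`, for an integer `e ≥ 2` prime to `p` and
`m ≥ 1`, so for `p = 2` and `p = 3` all equations with `deg a_i ≤ i (1 - m/6)`; or `p = 2`,
`deg F_j ≤ 6` and `y² + x y + a₃ y = x³ + a₂ x² + a₄ x + a₆` with degrees at most 6, 6, 18, 30 of
`a₂`, `a₃`, `a₄`, `a₆`; or `p = 3`, `deg F_j ≤ 6` and `y² = x³ + c x² + a₄ x + a₆` with `c ∈ k` and
degrees at most 12, 24.

(c) `p` is odd and `y² = G(x, g, h)` for a cubic form `G` over `k`, `G(1, 0, 0) = 1`, or the Jacobian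
of `v² = b₄ u⁴ + … + b₀`, where the polynomials `g, h` resp. the `b_i` all have the exponents `0`,
`p ^ i`, or all are combinations of `1`, `s`, `s^q`, `s^(q+1)`, for a power `q > 1` of `p`, or of
`s^m`, `s^n`.

(d) `p = 2`, `y² + x y = x³ + a₂ x² + q₁ q₂`, or `p = 3`, `y² = x³ + c x² + q₁ q₂`, where the
exponents of `a₂`, `q₁`, `q₂` and of the `F_j` are `0`, `p ^ i`, `p ^ i + p ^ j`.

(e) The surface is a pencil of curves: its field of functions is `F(t)(z_1, …, z_r)`, where `F` is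
finitely generated of transcendence degree one over `k`, and `φ_j(z_j) = f_j(t)` with additive
separable polynomials `φ_j` and polynomials `f_j` over `F` with the exponents `0`, `p ^ i`,
`p ^ i + p ^ j`.

For `X` an elliptic surface itself, `T₁` is equivalent to the finiteness of the `ℓ`-primary part of the
Tate-Shafarevich group of its generic fibre (Artin, Tate, Milne); that statement is handed in, for the
same families, as `MP_ae0bd0_nt.FunctionFieldTowers`, where the ideas of the proofs are explained. The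
theorem here is on all surfaces which are dominated by these surfaces, for example on the quotients
of the elliptic surfaces by finite groups, and on the surfaces in (e), which need not be elliptic.
What is known: surfaces with `p_g ≤ 1`, and surfaces dominated by products of curves (Tate 1966; proved
in the library `TIF`). The curves in (e) are supersingular; by a theorem of Oort their Jacobians become
isogenous to constant abelian varieties over a finite extension of `F`, so for elliptic surfaces the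
case (e) could also be obtained from a theorem of Milne.
-/

set_option autoImplicit false

namespace Pool.Agent.Results.MP_17a657_ag.EllipticSurfaces

open Polynomial Pool.Agent Pool.Agent.UQ Pool.Agent.EFF Pool.Agent.ADT Pool.Agent.QD Pool.Agent.EST
  Pool.Agent.WLD

open scoped Classical

/-- `W` is an elliptic curve over `k(s)`, `(x, y)` is a point of `W`, and `s`, `x` are algebraically
independent over `k`. -/
def Surface {k M : Type} [Field k] [Field M] [Algebra k M] (W : WeierstrassCurve k[X])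
    (s x y : M) : Prop :=
  W.Δ ≠ 0 ∧ Transcendental k s ∧ Transcendental (IntermediateField.adjoin k {s}) x ∧
    (W.map (aeval s : k[X] →ₐ[k] M).toRingHom).toAffine.Equation x y

/-- `φ(z) = f(t)` for each `z ∈ S`, with an additive separable polynomial `φ` over `L` and a polynomial
`f` over `L` with the property `P`; `φ`, `f` may depend on `z`. -/
def Layers (L : Type) {M : Type} [Field L] [Field M] [Algebra L M] (P : L[X] → Prop) (t : M)
    (S : Finset M) : Prop :=
  ∀ z ∈ S, ∃ φ f : L[X], AddPoly φ ∧ derivative φ ≠ 0 ∧ P f ∧ aeval z φ = aeval t f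

/-- Case (a): `a₁ = a₃ = 0`, and either `p = 3`, `a₂ = g³` and the degrees of `a₂`, `a₄`, `a₆` are at most
6, 12, 18, or `p = 5`, `a₂ = 0`, `a₄ = g⁵` and the degrees of `a₄`, `a₆` are at most 20, 30. -/
def CaseA {k : Type} [Field k] (p : ℕ) (W : WeierstrassCurve k[X]) : Prop :=
  W.a₁ = 0 ∧ W.a₃ = 0 ∧ ∃ g : k[X],
    ((p = 3 ∧ W.a₂ = g ^ 3 ∧ g.natDegree ≤ 2 ∧ W.a₄.natDegree ≤ 12 ∧ W.a₆.natDegree ≤ 18) ∨
      (p = 5 ∧ W.a₂ = 0 ∧ W.a₄ = g ^ 5 ∧ g.natDegree ≤ 4 ∧ W.a₆.natDegree ≤ 30))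

/-- Case (b): `φ(z) = f(s)` for `z ∈ S`, `f` of degree at most `m`, and either `m ≥ 1`,
`deg a_i ≤ i (1 - m (1 - 1 / e - 1 / p))` for some `e ≥ 2` prime to `p`; or `p = 2`, `m = 6`, `a₁ = 1`
and the degrees of `a₂`, `a₃`, `a₄`, `a₆` are at most 6, 6, 18, 30; or `p = 3`, `m = 6`,
`a₁ = a₃ = 0` and the degrees of `a₂`, `a₄`, `a₆` are at most 0, 12, 24. -/
def CaseB {k M : Type} [Field k] [Field M] [Algebra k M] (p : ℕ) (W : WeierstrassCurve k[X])
    (s : M) (S : Finset M) : Prop :=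
  (∃ e m : ℕ, 2 ≤ e ∧ ¬ p ∣ e ∧ 0 < m ∧ DegLe W (1 - m * (1 - 1 / e - 1 / p)) ∧
    Layers k (fun f => f.natDegree ≤ m) s S) ∨
  Layers k (fun f => f.natDegree ≤ 6) s S ∧
    ((p = 2 ∧ W.a₁ = 1 ∧ W.a₂.natDegree ≤ 6 ∧ W.a₃.natDegree ≤ 6 ∧ W.a₄.natDegree ≤ 18 ∧
      W.a₆.natDegree ≤ 30) ∨
    (p = 3 ∧ W.a₁ = 0 ∧ W.a₃ = 0 ∧ W.a₂.natDegree = 0 ∧ W.a₄.natDegree ≤ 12 ∧
      W.a₆.natDegree ≤ 24))

/-- The polynomials `B i` are all of one of the following types: the exponents are `0`, `p ^ i`; or they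
are linear combinations of `1`, `X`, `X ^ q`, `X ^ (q + 1)`, `q = p ^ j`, `j ≥ 1`; or they are linear
combinations of `X ^ m`, `X ^ n`. -/
def InV {k : Type} [Field k] (p : ℕ) {r : ℕ} (B : Fin r → k[X]) : Prop :=
  (∀ i, Low1 p (B i)) ∨
    (∃ j : ℕ, j ≠ 0 ∧ ∀ i, ∃ a b c d : k,
      B i = C a * X ^ (p ^ j + 1) + C b * X ^ p ^ j + C c * X + C d) ∨
    ∃ m n : ℕ, ∀ i, ∃ a b : k, B i = C a * X ^ m + C b * X ^ n

/-- `W` is `y² = G(x, g, h)`, where `G` is a cubic form over `k`, `G(1, 0, 0) = 1`: `a₁ = a₃ = 0`, and `a₂`,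
`a₄`, `a₆` are forms of degree 1, 2, 3 in `g`, `h` with coefficients in `k`. -/
def Form {k : Type} [Field k] (W : WeierstrassCurve k[X]) (g h : k[X]) : Prop :=
  W.a₁ = 0 ∧ W.a₃ = 0 ∧ ∀ d : Fin 3, ∃ c : ℕ → k,
    ![W.a₂, W.a₄, W.a₆] d = ∑ i ∈ Finset.range (d + 2), C (c i) * g ^ ((d : ℕ) + 1 - i) * h ^ i

/-- `W` is the Jacobian of `v² = B₄ u⁴ + B₃ u³ + B₂ u² + B₁ u + B₀`: `a₁ = a₃ = 0` and `a₂`, `a₄`, `a₆`
are `B₂`, `B₃ B₁ - 4 B₄ B₀`, `B₃² B₀ + B₄ B₁² - 4 B₄ B₂ B₀`. -/
def Jac {k : Type} [Field k] (W : WeierstrassCurve k[X]) (B : Fin 5 → k[X]) : Prop :=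
  W.a₁ = 0 ∧ W.a₃ = 0 ∧ W.a₂ = B 2 ∧ W.a₄ = B 3 * B 1 - 4 * B 4 * B 0 ∧
    W.a₆ = B 3 ^ 2 * B 0 + B 4 * B 1 ^ 2 - 4 * B 4 * B 2 * B 0

/-- Case (c): `p` is odd, and `Form W g h`, or `Jac W B`, where the polynomials `g`, `h` resp. the
polynomials `B i` are of one of the types in `InV`. -/
def CaseC {k : Type} [Field k] (p : ℕ) (W : WeierstrassCurve k[X]) : Prop :=
  p ≠ 2 ∧ ((∃ B : Fin 2 → k[X], InV p B ∧ Form W (B 0) (B 1)) ∨
    ∃ B : Fin 5 → k[X], InV p B ∧ Jac W B)

/-- Case (d): `p = 2` and `y² + x y = x³ + a₂ x² + g h`, or `p = 3` and `y² = x³ + a₂ x² + g h`, `a₂ ∈ k`,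
where the exponents of `a₂`, `g`, `h` are `0`, `p ^ i`, `p ^ i + p ^ j`, and `φ(z) = f(s)` for `z ∈ S`,
`f` with exponents `0`, `p ^ i`, `p ^ i + p ^ j`. -/
def CaseD {k M : Type} [Field k] [Field M] [Algebra k M] (p : ℕ) (W : WeierstrassCurve k[X])
    (s : M) (S : Finset M) : Prop :=
  W.a₃ = 0 ∧ W.a₄ = 0 ∧ Low2 p W.a₂ ∧ (∃ g h : k[X], Low2 p g ∧ Low2 p h ∧ W.a₆ = g * h) ∧
    ((p = 2 ∧ W.a₁ = 1) ∨ (p = 3 ∧ W.a₁ = 0 ∧ W.a₂.natDegree = 0)) ∧ Layers k (Low2 p) s S

/-- Case (e): `N` is contained in `F(t)(S)`, where `F` is a finitely generated field over `k` of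
transcendence degree one, `t` is transcendental over `F`, and `φ(z) = f(t)` for every `z ∈ S`, with an
additive separable polynomial `φ` and a polynomial `f` with coefficients in `F`; the exponents of `f`
are `0`, `p ^ i`, `p ^ i + p ^ j`. -/
def CaseE {k M : Type} [Field k] [Field M] [Algebra k M] (p : ℕ) (N : IntermediateField k M) :
    Prop :=
  ∃ (F : IntermediateField k M) (t : M) (S : Finset M), F.FG ∧ Algebra.trdeg k F = 1 ∧
    Transcendental F t ∧ Layers F (Low2 p) t S ∧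
      N ≤ F ⊔ IntermediateField.adjoin k (insert t (S : Set M))

/-- The Jacobian form. -/
private theorem hemt {k : Type} [Field k] [Finite k] (p : ℕ) [Fact p.Prime] [CharP k p]
    (hp : p ≠ 2) (B : Fin 5 → k[X]) (hB : InV p B) : HEmt k B := by
  rcases hB with hB | ⟨j, hj, hB⟩ | ⟨m, n, hB⟩
  · by_cases h0 : ∃ i, (B i).natDegree ≠ 0
    · obtain ⟨i₀, h0⟩ := h0
      intro M _ _ _ htd t u v hu hv hal F hF hFal
      exact emt_H p htd t i₀ _ u v hu B hB h0 le_rfl hv hal F hF hFal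
    · refine emt_M0 0 0 B fun i => ?_
      have h1 : (B i).natDegree = 0 := by
        by_contra h2
        exact h0 ⟨i, h2⟩
      obtain ⟨a, ha⟩ := natDegree_eq_zero.1 h1
      refine ⟨a, 0, ?_⟩
      rw [← ha, pow_zero, mul_one, map_zero, zero_mul, add_zero]
  · exact emt_J p hp j hj B hB
  · exact emt_M0 m n B hB

/-- The cases (a), …, (d). -/
private theorem cases {k M : Type} [Field k] [Finite k] [Field M] [Algebra k M] [IsAlgClosed M]
    (p : ℕ) [Fact p.Prime] [CharP k p] (htd : Algebra.trdeg k M = 2) (N : IntermediateField k M)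
    (hN : ∀ b : M, IsAlgebraic N b) (W : WeierstrassCurve k[X]) (s x y : M) (S : Finset M)
    (hΔ : W.Δ ≠ 0) (hs : Transcendental k s)
    (hx : Transcendental (IntermediateField.adjoin k {s}) x)
    (hy : MvPolynomial.aeval ![x, y, s] (wpoly W) = 0)
    (hle : N ≤ IntermediateField.adjoin k (({x, y, s} : Set M) ∪ (S : Set M)))
    (h : (S = ∅ ∧ (CaseA p W ∨ CaseC p W)) ∨ CaseB p W s S ∨ CaseD p W s S) : Emt N := by
  have hal := alg_xys htd s x y hs hx
  have hxs := ne_aeval s x hx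
  rcases h with ⟨rfl, h⟩ | h
  · have hle' : N ≤ IntermediateField.adjoin k ({x, y, s} : Set M) := by
      refine hle.trans (IntermediateField.adjoin.mono _ _ _ ?_)
      rw [Finset.coe_empty, Set.union_empty]
    rcases h with ⟨w1, w3, g, ⟨rfl, w2, dg, d4, d6⟩ | ⟨rfl, w2, w4, dg, d6⟩⟩ |
      ⟨hp, ⟨B, hB, w1, w3, hG⟩ | ⟨B, hB, w1, w3, w2, w4, w6⟩⟩
    · exact hw_wemt W w1 w3 g w2 dg d4 d6 M htd s x y hs hy hx hal N hle' hN
    · exact emt_a5 htd s x y hs hx W hΔ w1 w2 w3 g w4 dg d6 hy hal N hle' hN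
    · obtain ⟨a, ha⟩ := hG 0
      obtain ⟨b, hb⟩ := hG 1
      obtain ⟨e, he⟩ := hG 2
      refine emt_form p hp htd s x y hs W hΔ
        ![a 0, a 1, b 0, b 1, b 2, e 0, e 1, e 2, e 3] (B 0) (B 1)
        (temt_V p hp B hB) w1 w3 ?_ ?_ ?_ hy hal N hle' hN
      · rw [show W.a₂ = _ from ha]
        simp [Finset.sum_range_succ]
      · rw [show W.a₄ = _ from hb]
        simp [Finset.sum_range_succ]
      · rw [show W.a₆ = _ from he]
        simp [Finset.sum_range_succ]
    · exact emt_jac p hp htd s x y hs W hΔ B (hemt p hp B hB) w1 w3 w2 w4 w6 hy hal N hle' hN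
  · rcases h with (⟨e, m, he, hep, hm, hW, hS⟩ | ⟨hS, ⟨rfl, w1, d2, d3, d4, d6⟩ |
      ⟨rfl, w1, w3, d2, d4, d6⟩⟩) | ⟨w3, w4, h2, ⟨q₁, q₂, h₁, h₂, w6⟩, hW, hS⟩
    · exact emt_b1 p htd s x y W hy hal e m he hep hm hW S hS N hle hN
    · have h3 : ((3 : ℕ) : k) ≠ 0 := by
        intro h
        have h4 := (CharP.cast_eq_zero_iff k 2 3).1 h
        omega
      exact emt_42 2 htd s x y hs hxs W hy hal 3 14 21 (by norm_num) h3 (by norm_num)
        (by norm_num) (by norm_num) (by norm_num) (by norm_num)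
        (ADH.geo2 W hΔ w1 d3 d4 d2 d6) S hS N hle hN
    · exact emt_b3 htd s x y W w1 w3 hy hal d2 d4 d6 S hS N hle hN
    · rcases hW with ⟨rfl, w1⟩ | ⟨rfl, w1, w2⟩
      · exact emt_GQ 2 htd s x y hs hxs W hy hal (geoQ2 W hΔ w1 w3 w4 q₁ q₂ w6 X
          (by rw [comp_X]; exact h2) (by rw [comp_X]; exact h₁) (by rw [comp_X]; exact h₂))
          S hS N hle hN
      · obtain ⟨b, hb⟩ := natDegree_eq_zero.1 w2
        have hb0 : b ≠ 0 := by
          rintro rfl
          apply hΔ
          have h3 : (3 : k[X]) = 0 := by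
            have h4 : ((3 : ℕ) : k[X]) = 0 := CharP.cast_eq_zero _ 3
            exact_mod_cast h4
          rw [WeierstrassCurve.Δ, WeierstrassCurve.b₂, WeierstrassCurve.b₄, WeierstrassCurve.b₆,
            WeierstrassCurve.b₈, w1, w3, w4, ← hb, map_zero]
          linear_combination (-144 * W.a₆ ^ 2) * h3
        exact emt_GQ 3 htd s x y hs hxs W hy hal (geoQ3 W hΔ w1 w3 w4 b hb0 hb.symm q₁ q₂ w6 X
          (by rw [comp_X]; exact h₁) (by rw [comp_X]; exact h₂)) S hS N hle hN

/-- the equation in the form of the library -/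
private theorem eqn {k M : Type} [Field k] [Field M] [Algebra k M] (W : WeierstrassCurve k[X])
    (s x y : M) (h : (W.map (aeval s : k[X] →ₐ[k] M).toRingHom).toAffine.Equation x y) :
    MvPolynomial.aeval ![x, y, s] (wpoly W) = 0 := by
  rw [aeval_wpoly]
  have h1 := (WeierstrassCurve.Affine.equation_iff _ _).1 h
  simp only [WeierstrassCurve.map_a₁, WeierstrassCurve.map_a₂, WeierstrassCurve.map_a₃,
    WeierstrassCurve.map_a₄, WeierstrassCurve.map_a₆] at h1
  change y ^ 2 + aeval s W.a₁ * x * y + aeval s W.a₃ * y =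
    x ^ 3 + aeval s W.a₂ * x ^ 2 + aeval s W.a₄ * x + aeval s W.a₆ at h1
  simp only [Matrix.cons_val_zero, Matrix.cons_val_one, Matrix.cons_val]
  linear_combination h1

/-- **Theorem.** Let `k` be a finite field of characteristic `p`, `M` an algebraically closed field of
transcendence degree two over `k`, and let `N ⊆ M` be a field over `k` of transcendence degree two,
which is contained in the field `k(s)(S)(x, y)` of functions of an elliptic surface in one of the
cases (a), …, (d), or in a field `F(t)(S)` as in (e). Then `T₁(N)` holds for all primes `ℓ ≠ p`. -/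
theorem result (k M : Type) [Field k] [Finite k] (p : ℕ) [Fact p.Prime] [CharP k p] [Field M]
    [Algebra k M] [IsAlgClosed M] (htd : Algebra.trdeg k M = 2) (N : IntermediateField k M)
    (hN : ∀ b : M, IsAlgebraic N b)
    (h : (∃ (W : WeierstrassCurve k[X]) (s x y : M) (S : Finset M), Surface W s x y ∧
      N ≤ IntermediateField.adjoin k (({x, y, s} : Set M) ∪ (S : Set M)) ∧
      ((S = ∅ ∧ (CaseA p W ∨ CaseC p W)) ∨ CaseB p W s S ∨ CaseD p W s S)) ∨ CaseE p N)
    (ℓ : ℕ) (hℓ : ℓ.Prime) (hk : (ℓ : k) ≠ 0) : Pool.Agent.T1B.T1 k N ℓ := by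
  refine t1_of_emt N hN ?_ ℓ hℓ hk
  rcases h with ⟨W, s, x, y, S, ⟨hΔ, hs, hx, hy⟩, hle, h⟩ | ⟨F, t, S, hF, htF, ht, hS, hle⟩
  · exact cases p htd N hN W s x y S hΔ hs hx (eqn W s x y hy) hle h
  · have hal : ∀ b : M, IsAlgebraic (F ⊔ IntermediateField.adjoin k {t} :
        IntermediateField k M) b := alg_sup htd F htF t ht
    refine tower_Q p htd F hF htF t hal S hS N (hle.trans ?_) hN
    rw [Set.insert_eq, IntermediateField.adjoin_union, sup_assoc]

end Pool.Agent.Results.MP_17a657_ag.EllipticSurfaces
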