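import Pool.Agent.RDM.Quartic
import Pool.Agent.RDM.Main
import Pool.Agent.TIF.Goal

/-!
# MP_17a657_ag (Tate conjecture for divisors): pencils of plane curves with unirational double planes

Let `f, g ∈ k[x,y]`, `F = f/g`, and let `X` be the surface `φ(z) = F(x,y)` where `φ = z^N` or `φ` is
an additive polynomial. Its function field is `K = k(x,y,z)`. Suppose that the general curve
`F = c` of the pencil is geometrically irreducible (it may be singular), and that the double planes
`w² = F(x,y) - l`, for `l` transcendental over `k`, are unirational over an algebraic closure of
`k(l)`. Then the Tate conjecture for divisors for `X` follows from the Tate conjecture for divisors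
for finitely many products of two curves, which do not depend on `ℓ`. If `k` is finite, the latter is
Tate's theorem; it is proved in the library `TIF`, so there is no hypothesis left.

The assumption on the double planes holds for `f` of degree at most four and `g` the square of a
polynomial of degree at most two (quartics with a double conic; the double planes are del Pezzo
surfaces of degree two, possibly singular). This is proved here, over every algebraically closed
field of characteristic not two, and it is a part of the statement: if `w² = F(x,y)` with `F`
irreducible of degree three or four and `p` is a general point of the plane, then the curve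
`w = (Taylor polynomial of order two of the square root of F at p)` is rational with a triple point
over `p`; two steps of this construction give a unirational parametrization.

Idea of the proof. Let `(P,z)` be a generic point of `X` with coordinates in an algebraic closure
`M` of `K`, `t = φ(z)`, and let `C` be the curve `F = t` over `M`. (1) Let `s` be an indeterminate
and `l = t - s²`. The point `(P,s)` of the double plane `w² = F - l` is joined by a rational curve
with a point which is algebraic over `k(l)`. On the surface which is swept out by these curves when
`s` varies, `F - t = w² - s²` has two components; the component `w = -s` is mapped to `C`, and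
the commutativity of intersections gives a relation on `C`: a multiple of the divisor `P` is, up to
principal divisors and up to points which are algebraic over `k(z)`, a sum of the divisors cut out
by curves on the double planes `w² = F - lⱼ` at `w = -sⱼ`, where `lⱼ = t - sⱼ²`. (2) As the double
plane is unirational these curves may be replaced by curves which are algebraic over `k(lⱼ)` (if
`lⱼ` is algebraic over `k`, the double plane is still dominated by a ruled surface). So the
divisors are defined over a finite extension of `k(lⱼ)` with `z` and `sⱼ` adjoined. Since
`φ(z) - sⱼ² = lⱼ`, this is contained in a field `K₁ K₂`, where `K₂` is the function field of the curve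
`v² = u^N - 1` (or `v² = φ(u)`). (3) An invariant unramified element of `T_ℓ Br(K k^s)` is evaluated
at the points of `C`; by Weil reciprocity the relation shows that a multiple of it is a sum of norms
from the fields `K₁ K₂`. (4) For finite `k` the fields `K₁ K₂` are contained in the function field of
`C × C` for one curve `C` with a rational point, an invariant unramified element of
`T_ℓ Br(k^s(C × C))` is an invariant endomorphism of the Tate module of the Jacobian of `C`, and these
are combinations of honest endomorphisms by the theorem of Tate.
-/

namespace Pool.Agent.Results.MP_17a657_ag.RationalDoublePlanes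

open Polynomial Pool.Agent.TQU

universe u

/-- A generic point `(X 0, X 1, W)`, with coordinates in `F`, of the double plane
`w² = f/g - l` over the field `K ∋ l`: `X 0, X 1` are algebraically independent over `K` and
`W² g(X) = f(X) - l g(X)`. -/
def GenericPoint {k K F : Type u} [Field k] [Field K] [Field F] [Algebra k K] [Algebra k F]
    [Algebra K F] (f g : MvPolynomial (Fin 2) k) (l : K) (X : Fin 2 → F) (W : F) : Prop :=
  AlgebraicIndependent K X ∧ W ^ 2 * MvPolynomial.aeval X g =
    MvPolynomial.aeval X f - algebraMap K F l * MvPolynomial.aeval X g

/-- The double plane `w² = f/g - l` is unirational over the field `K ∋ l`: it has a generic point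
whose coordinates are rational functions in two variables over `K`. -/
def Unirational {k : Type u} (K : Type u) [Field k] [Field K] [Algebra k K]
    (f g : MvPolynomial (Fin 2) k) (l : K) : Prop :=
  ∃ (X : Fin 2 → FractionRing (MvPolynomial (Fin 2) K))
    (W : FractionRing (MvPolynomial (Fin 2) K)), GenericPoint f g l X W

/-- For `l` transcendental over `k` the double plane `w² = f/g - l` is unirational over the
algebraic closure of `k(l)`. -/
def UnirationalDoublePlane {k : Type u} [Field k] (f g : MvPolynomial (Fin 2) k) : Prop :=
  Unirational (AlgebraicClosure (RatFunc k)) f g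
    (algebraMap (RatFunc k) (AlgebraicClosure (RatFunc k)) RatFunc.X)

theorem result (k M : Type) [Field k] [Field M] [Algebra k M] [IsAlgClosed M]
    (hk : (2 : k) ≠ 0) (f g : MvPolynomial (Fin 2) k) (hg : g ≠ 0)
    (hR : (∃ q : MvPolynomial (Fin 2) k, g = q ^ 2 ∧ q.totalDegree ≤ 2 ∧ f.totalDegree ≤ 4) ∨
      UnirationalDoublePlane f g)
    (φ : k[X]) (hφ : (∃ N, 0 < N ∧ φ = X ^ N) ∨ (AddPoly φ ∧ φ ≠ 0))
    (P : Fin 2 → M) (hP : AlgebraicIndependent k P) (z : M)
    (hz : aeval z φ * MvPolynomial.aeval P g = MvPolynomial.aeval P f)
    (hG : Irreducible (MvPolynomial.map (algebraMap k M) f -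
      MvPolynomial.C (aeval z φ) * MvPolynomial.map (algebraMap k M) g))
    (K : IntermediateField k M) (hK : K = IntermediateField.adjoin k ({z} ∪ Set.range P))
    (hM : ∀ x : M, IsAlgebraic K x) :
    ∃ (m : ℕ) (K₁ K₂ : Fin m → IntermediateField k M),
      (∀ i, (K₁ i).FG ∧ (K₂ i).FG ∧ Algebra.trdeg k (K₁ i) ≤ 1 ∧ Algebra.trdeg k (K₂ i) ≤ 1) ∧
      ∀ ℓ : ℕ, ℓ.Prime → (ℓ : k) ≠ 0 →
        ((∀ i, Pool.Agent.T1B.T1 k (K₁ i ⊔ K₂ i : IntermediateField k M) ℓ) →
          Pool.Agent.T1B.T1 k K ℓ) ∧
        (Finite k → Pool.Agent.T1B.T1 k K ℓ) := by
  have hR' : Pool.Agent.RDP.DPU f g (AlgebraicClosure (RatFunc k))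
      (algebraMap (RatFunc k) (AlgebraicClosure (RatFunc k)) RatFunc.X) := by
    rcases hR with ⟨q, rfl, hq, hf⟩ | hR
    · have hq0 : q ≠ 0 := by
        rintro rfl
        exact hg (by simp)
      exact Pool.Agent.RDP.quartic_dpu hk f q hq0 hf hq (aeval z φ) P hP hz hG
    · exact hR
  obtain ⟨m, K₁, K₂, h1, h2⟩ :=
    Pool.Agent.RDP.final k M hk f g hg hR' φ hφ P hP z hz hG K hK hM
  refine ⟨m, K₁, K₂, h1, fun ℓ hℓ hℓk => ⟨h2 ℓ hℓ hℓk, fun hfin => h2 ℓ hℓ hℓk fun i => ?_⟩⟩
  obtain ⟨a1, a2, a3, a4⟩ := h1 i
  exact TIF.goal k M (K₁ i) (K₂ i) a1 a2 a3 a4 ℓ hℓ hℓk

end Pool.Agent.Results.MP_17a657_ag.RationalDoublePlanes
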