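import Pool.Agent.KTW.Cases
import Pool.Agent.NOC.Emb
import Pool.Agent.TIF.Goal

/-!
# MP_17a657_ag (Tate conjecture for divisors): Kummer covers with uniruled quotient threefolds

(i) Let `K₀` be the function field of a surface over `k`, `F ∈ K₀`, `K = K₀(z)`, `z ^ N = F`, an
extension of degree `N` (`X` is a smooth model of `K`), and let `b = B₁ / B₂` be a
rational function of one variable with at least three zeros and poles, infinity included. If the
threefold `w ^ N b(a) = F`, a quotient of the product of `X` and the curve `U ^ N = b(a)`, is
uniruled, then the Tate conjecture for divisors holds for `X` if it holds for finitely many products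
of two curves and for the quotients of `X` with the function fields `K₀(z ^ (N / gcd(N, e)))`, where
`e` runs through the orders of the zeros and poles of `b`. More precisely, for every prime `ℓ`
invertible in `k` the group `V_ℓ` of the invariant unramified elements of the Tate module of the
geometric Brauer group of `X` embeds in the product of the groups `V_ℓ` of these surfaces. If the
orders are prime to `N` and `K₀ = k(x, y)`, only products of two curves are left. For finite `k` the
groups `V_ℓ` of products of two curves are zero by Tate's theorem, which is proved in the library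
`TIF`. The assumption on the threefold is proved for `b = 1 + a²` and `F = f / q²` on the plane under
a condition on the degrees of `f` and `q` for some weights of `x` and `y` (`Fam`): for instance
`F = f` of degree six for `N = 3`, of degree five for `N = 5`, and `f` of degree four and `q` of
degree two for every `N`. The threefold is then birational to a double cover `v² = H` of a weighted
projective space, with negative canonical class, and the rational curves on it are explicit.

(ii) Let `K₀ = k(x, y)`, `N = 2`, `3`, `4` or `6`, and let `h₁, …, h_r` be nonzero polynomials in `x`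
and `y`. For weights of `x` and `y` with sum `s > 0` let `W` be a subgroup of `(Z / N) ^ r` such that
`∑ [e_i] wt h_i ≤ N s` or `∑ [-e_i] wt h_i ≤ N s` for every `e ∈ W`, where `0 ≤ [e] < N`; for instance
`W = (Z / N) ^ r`, if `∑ wt h_i ≤ 2 s`. Let `K` be generated over `K₀` by elements `z` with
`z ^ N = c h₁ ^ e₁ ⋯ h_r ^ e_r`, `c ∈ k`, `c ≠ 0`, `e mod N ∈ W`. Then the group `V_ℓ` of `K`, and of
every subfield `E` of `K` over which `K` is algebraic, embeds in the product of the groups `V_ℓ` of
finitely many products of curves; so the Tate conjecture for divisors holds for every surface over a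
finite field `k` which is dominated by `X`. Examples are the surfaces `w ^ 6 = f₃(s ^ 6, t)` and
`w ^ 6 = f₂(s ^ 6, t ^ 6)` with `deg f_i ≤ i`: the first is the cover with group `(Z / 6) ^ 2` of the
plane branched along a cubic curve and two lines (one of them at infinity), of geometric genus 17,
with five moduli; the second is the cover with group `(Z / 6) ^ 3` branched along a conic and three
lines, of geometric genus 70, with three moduli. Other examples are `z ^ 3 = f₆`, `z ^ 4 = f₄ g₂ ^ 2`
and `z ^ 6 = f₂ g₂ ^ 2 h₂ ^ 3` (geometric genus three) and, with the weights `(1, n)`, `n ≤ 3`, the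
surfaces `z ^ 3 = f(x, y)`, `wt f ≤ 3 n + 3` (geometric genus `n + 2`). (The surfaces `z ^ N = f₄` are in the hand-in
`RationalDoublePlanes`, and the cover branched along two conics and a line in `ThreeConics`, for
every `N`; a cover branched along five lines is dominated by a product of curves, because the lines
are tangent to a conic.)

Idea of the proof of (i). Let `P` be a generic point of the surface of `K₀` and `A` the algebraic
closure of `K`. The field `L = K₀(a, w)` of the threefold is contained in `H(T)`, where `H` is
algebraically closed of transcendence degree two over `k`: through the generic point of the threefold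
there is the rational curve with the parametrization `P(T), a(T), w(T)`. Let `(a, U)` be the generic
point of the curve `U ^ N = b(a)` over `A`, so that `(P, a, w)`, `w = z / U`, is a point of the
threefold, with the parameter `T = t`. The zeros `T_i` of `(b(a(T)) - b(a)) / (a(T) - a)` give
embeddings `ξ_i : P ↦ P(T_i), z ↦ w(T_i) U` of `K` in an algebraic closure of `A(a, U)`; let
`h_i = T_i - t`. (1) Block R, reciprocity: for an invariant unramified class `c` of `K` the sum of the
conjugates `c^ψ`, `ψ` the residue of `ξ_i` at a place `v`, multiplied by `ord_v(h_i)`, over all places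
of `A(a, U)` and all `i`, is trivial over a finite extension (up to `p`-torsion). (2) Block G,
geometry: let `v` induce the trivial valuation on `H`. If `T_i(v) = t(v)` and `b(a(v))` is finite and
not zero, then `ψ` is the identity on `K`, which contributes a positive multiple of `c`; this occurs
at the critical points of `b` different from the zeros and poles. If `a(v)` is a zero or pole of `b`,
of order `e`, the values of `z` are multiplied by roots of unity, and these conjugates of `c` add up
to traces to `K₀(z ^ (N / gcd(N, e)))` and `K₀`. If `v` is not trivial on `H`, the points and their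
values are defined over the compositum of two fields of transcendence degree one. (3) So a multiple
of `c` is a sum of elements which come from the fields in the list (block INV), and these fields do
not depend on `ℓ`.

Idea of the proof of (ii). Over a finite extension `E` of `k` which contains the roots of unity and
the coefficients of the irreducible factors `π_j` of the `h_i` the field `K` is an abelian extension
of `K₀` with a Galois group killed by `N`. For `N = 2`, `3`, `4`, `6` there is an integral
function `R` on `Z / N` with `R(0) ≠ 0` whose sums over the cosets of nonzero subgroups vanish; the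
corresponding relation in the group ring of `(Z / N) ^ r` shows that `V_ℓ(K)` embeds in the product of
the groups `V_ℓ` of the cyclic extensions `K₀(z₁ ^ c₁ ⋯ z_r ^ c_r)`, that is of fields `K₀(Z)`, where
`Z ^ d` is a product of powers of the `π_j`, `d` divides `N` and `X ^ d - Z ^ d` is irreducible. The
condition on `W` is inherited by these extensions and says that `Z` can be chosen such that `Z ^ d` is
a polynomial `f` with `wt f ≤ d s`. For `d = 3` and `d = 4` the threefold `w ^ d (1 + a²) = f` is
uniruled; for `d = 6` the threefold `w ^ 6 (1 + a) = f a³` is uniruled, because it is birational to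
`W² = f - U³`; for `d = 2` the surface `Z² = f` itself is uniruled. So the general theorem (i)
reduces `K₀(Z)` to `K₀(Z ^ 2)`, `K₀(Z ^ 3)` and products of curves, and the result follows by
induction on `d`.
-/

namespace Pool.Agent.Results.MP_17a657_ag.UniruledCyclicQuotients

open Pool.Agent.TUQ Pool.Agent.UQ Pool.Agent.NOC Pool.Agent.WLD Pool.Agent.KTW

theorem result {k M : Type} [Field k] [Field M] [Algebra k M] [IsAlgClosed M]
    (htd : Algebra.trdeg k M = 2) (K₀ : IntermediateField k M) (hfg : K₀.FG)
    (hal : ∀ x : M, IsAlgebraic K₀ x) (N : ℕ) (S : Finset M) (T : Set (IntermediateField k M))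
    (h : CaseC K₀ S N T ∨ CaseT K₀ S N ∧ T = ∅) (E : IntermediateField k M)
    (hE : E ≤ K₀ ⊔ IntermediateField.adjoin k (S : Set M)) (hEal : ∀ x : M, IsAlgebraic E x) :
    ∃ (n : ℕ) (L : Fin n → IntermediateField k M),
      (∀ j, ((Infinite k ∧ Two (L j)) ∨ L j ∈ T) ∧ ∀ x : M, IsAlgebraic (L j) x) ∧
      ∀ ℓ : ℕ, ℓ.Prime → (ℓ : k) ≠ 0 →
        Embeds k ℓ E L ∧ (Finite k → (∀ L' ∈ T, Two L') → Pool.Agent.T1B.T1 k E ℓ) := by
  obtain ⟨n, L, h1, h2⟩ := cases_hom htd K₀ hfg hal S N T h E hE hEal
  have h3 : ∀ ℓ : ℕ, ℓ.Prime → (ℓ : k) ≠ 0 → Embeds k ℓ E L := fun ℓ hℓ hk =>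
    embeds_of_hom _ _ _ (h2 ℓ hℓ hk)
  rcases finite_or_infinite k with hf | hi
  · have hT : ∀ L' : IntermediateField k M, Two L' → ∀ ℓ : ℕ, ℓ.Prime → (ℓ : k) ≠ 0 →
        Pool.Agent.T1B.T1 k L' ℓ := by
      rintro _ ⟨K₁, K₂, a1, a2, a3, a4, rfl⟩ ℓ hℓ hk
      exact TIF.goal k M K₁ K₂ a1 a2 a3 a4 ℓ hℓ hk
    obtain ⟨n', ι, i1, i2⟩ := TIF.exists_sub fun j => L j ∈ T
    refine ⟨n', fun j => L (ι j), fun j => ⟨Or.inr (i1 j), (h1 (ι j)).2⟩, fun ℓ hℓ hk => ⟨?_,
      fun _ hx => ?_⟩⟩
    · refine TIF.embeds_sub L ι (fun i => ?_) (h3 ℓ hℓ hk)
      rcases (h1 i).1 with hg | hg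
      · exact Or.inr ⟨hT _ hg ℓ hℓ hk, (h1 i).2⟩
      · exact Or.inl (i2 i hg)
    · refine TIF.t1_of_embeds' hEal L (fun j => ⟨?_, (h1 j).2⟩) (h3 ℓ hℓ hk)
      rcases (h1 j).1 with hg | hg
      · exact hT _ hg ℓ hℓ hk
      · exact hT _ (hx _ hg) ℓ hℓ hk
  · refine ⟨n, L, fun j => ⟨?_, (h1 j).2⟩, fun ℓ hℓ hk => ⟨h3 ℓ hℓ hk, fun hf =>
      absurd hf (not_finite_iff_infinite.2 hi)⟩⟩
    rcases (h1 j).1 with hg | hg
    · exact Or.inl ⟨hi, hg⟩
    · exact Or.inr hg

end Pool.Agent.Results.MP_17a657_ag.UniruledCyclicQuotients
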